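import Pool.Agent.H809Z.Ball.Defs

open scoped Topology ENNReal InnerProductSpace
open Filter Metric Set MeasureTheory

namespace Pool.Agent.H809Z.Ball

namespace Slice

variable {n : ℕ}

lemma dd_radial {ζ : En n} (hζ : ‖ζ‖ = 1) (s : ℝ) (hs : 0 ≤ s) :
    dd ζ (((1 - s : ℝ) : ℂ) • ζ) = s := by
  unfold dd
  rw [inner_smul_left, inner_self_eq_norm_sq_to_K, hζ]
  simp [abs_of_nonneg hs]

lemma smul_mem {ζ : En n} (hζ : ‖ζ‖ = 1) {x : ℂ} (hx : ‖x‖ < 1) : x • ζ ∈ ball (0 : En n) 1 := by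
  rw [mem_ball_zero_iff, norm_smul, hζ, mul_one]
  exact hx

lemma norm_le_sum (v : En n) : ‖v‖ ≤ ∑ i, ‖v i‖ := by
  rw [EuclideanSpace.norm_eq, Real.sqrt_le_iff]
  exact ⟨Finset.sum_nonneg fun i _ => norm_nonneg _,
    Finset.sum_sq_le_sq_sum_of_nonneg fun i _ => norm_nonneg _⟩

lemma expand (hE : LemE n) (j G : En n → ℂ) (ζ : En n) (hζ : ‖ζ‖ = 1) (m Cj D : ℝ) (hm : 0 ≤ m)
    (hCj : 0 ≤ Cj) (hD : 0 ≤ D) (hj : ∀ w ∈ ball (0 : En n) 1, ‖j w‖ ≤ Cj * dd ζ w ^ m)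
    (hr : Rep j G) (hG : ∀ w ∈ ball (0 : En n) 1, ‖G w‖ ≤ D * ‖j w‖) :
    ∃ (e : ℂ) (C : ℝ), 0 ≤ C ∧ ∀ τ : ℂ, ‖1 + τ‖ < 1 →
      ‖G ((1 + τ) • ζ) - e * τ ^ ⌈m⌉₊‖ ≤ C * ‖τ‖ ^ (m + 7 / 8) := by
  obtain ⟨C, μ, hC, hμ, hb, hGμ⟩ := hr
  have hk1 : (⌈m⌉₊ : ℝ) < m + 1 := Nat.ceil_lt_add_one hm
  have hk2 : m ≤ ⌈m⌉₊ := Nat.le_ceil m
  obtain ⟨C', hC', h⟩ := hE (⌈m⌉₊ + 1) m (m + 7 / 8) hm (by push_cast; linarith) (by linarith)
    (by push_cast; linarith) (by linarith)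
  obtain ⟨e, he⟩ := h μ (C * Cj) ζ ζ (by positivity) hμ hζ.le hζ.le (by
    intro y hy
    have h1 := hb y hy
    have h2 := hj y hy
    have h3 : 0 ≤ 1 - ‖y‖ := by
      have := mem_ball_zero_iff.1 hy
      linarith
    calc ‖μ y‖ ≤ C * ‖j y‖ * (1 - ‖y‖) := h1
      _ ≤ C * (Cj * dd ζ y ^ m) * (1 - ‖y‖) := by gcongr
      _ = C * Cj * (1 - ‖y‖) * dd ζ y ^ m := by ring)
  have he' : ∀ τ : ℂ, ‖1 + τ‖ < 1 → ‖G ((1 + τ) • ζ) - ∑ i ∈ Finset.range (⌈m⌉₊ + 1), e i * τ ^ i‖ ≤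
      C' * (C * Cj) * ‖τ‖ ^ (m + 7 / 8) := by
    intro τ hτ
    have e1 : ζ + τ • ζ = (1 + τ) • ζ := by rw [add_smul, one_smul]
    have hτ2 : ‖τ‖ ≤ 2 := by
      have : τ = (1 + τ) - 1 := by ring
      rw [this]
      refine (norm_sub_le _ _).trans ?_
      rw [norm_one]
      linarith
    have := he τ hτ2 (by rw [e1]; exact (mem_ball_zero_iff.1 (smul_mem hζ hτ)).le)
    rw [e1, ← hGμ _ (smul_mem hζ hτ)] at this
    exact this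
  have hlow := low_coeff (⌈m⌉₊ + 1) e m (D * Cj + C' * (C * Cj)) (by
    filter_upwards [Ioo_mem_nhdsGT (show (0 : ℝ) < 1 by norm_num)] with t ht
    have e1 : (1 : ℂ) + -(t : ℂ) = ((1 - t : ℝ) : ℂ) := by push_cast; ring
    have e2 : ‖(1 : ℂ) + -(t : ℂ)‖ < 1 := by
      rw [e1, Complex.norm_real, Real.norm_eq_abs, abs_of_nonneg (by linarith [ht.2])]
      linarith [ht.1]
    have h1 := he' (-(t : ℂ)) e2
    have h2 := hG _ (smul_mem hζ e2)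
    have h3 := hj _ (smul_mem hζ e2)
    rw [e1, dd_radial hζ t ht.1.le] at h3
    rw [norm_neg, Complex.norm_real, Real.norm_eq_abs, abs_of_pos ht.1] at h1
    have h4 : t ^ (m + 7 / 8) ≤ t ^ m :=
      Real.rpow_le_rpow_of_exponent_ge ht.1 ht.2.le (by linarith)
    have h5 : ‖∑ i ∈ Finset.range (⌈m⌉₊ + 1), e i * (-(t : ℂ)) ^ i‖ ≤
        ‖G (((1 : ℂ) + -(t : ℂ)) • ζ)‖ + ‖G (((1 : ℂ) + -(t : ℂ)) • ζ) -
          ∑ i ∈ Finset.range (⌈m⌉₊ + 1), e i * (-(t : ℂ)) ^ i‖ := by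
      have := norm_sub_le (G (((1 : ℂ) + -(t : ℂ)) • ζ)) (G (((1 : ℂ) + -(t : ℂ)) • ζ) -
          ∑ i ∈ Finset.range (⌈m⌉₊ + 1), e i * (-(t : ℂ)) ^ i)
      rwa [sub_sub_cancel] at this
    rw [e1] at h2 h5 h1
    have h6 : D * ‖j (((1 - t : ℝ) : ℂ) • ζ)‖ ≤ D * (Cj * t ^ m) := by gcongr
    have h7 : C' * (C * Cj) * t ^ (m + 7 / 8) ≤ C' * (C * Cj) * t ^ m := by gcongr
    nlinarith)
  refine ⟨e ⌈m⌉₊, C' * (C * Cj), by positivity, fun τ hτ => ?_⟩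
  have := he' τ hτ
  rwa [Finset.sum_range_succ, Finset.sum_eq_zero (fun i hi => by
    rw [hlow i (by rw [Finset.mem_range] at hi; omega)
      (Nat.lt_ceil.1 (Finset.mem_range.1 hi)), zero_mul]), zero_add] at this

end Slice

open Slice in
theorem slice_holder {n : ℕ} (hE : LemE n) (hI : Improve n) (j : En n → ℂ) (φ : En n → En n)
    (ζ : En n) (hζ : ‖ζ‖ = 1) (hj : DifferentiableOn ℂ j (ball 0 1))
    (hne : ∀ w ∈ ball (0 : En n) 1, j w ≠ 0) (hB : ∃ B : ℝ, ∀ w ∈ ball (0 : En n) 1, ‖j w‖ ≤ B)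
    (hφ : ∃ B : ℝ, ∀ w ∈ ball (0 : En n) 1, ‖φ w‖ ≤ B)
    (hrep : ∀ (c : ℂ) (l : En n →L[ℂ] ℂ), Rep j fun a => j a * (c + l (φ a)))
    (hfin : ∃ c K : ℝ, 0 < c ∧ ∀ᶠ t : ℝ in 𝓝[<] 1, c * (1 - t) ^ K ≤ ‖j ((t : ℂ) • ζ)‖) :
    ∃ (p : En n) (C : ℝ), ∀ x ∈ ball (0 : ℂ) 1, ‖φ (x • ζ) - p‖ ≤ C * ‖1 - x‖ ^ (3 / 4 : ℝ) := by
  obtain ⟨κ, hκ, hI⟩ := hI
  obtain ⟨B₀, hB₀⟩ := hφ
  obtain ⟨B, hB0, hφB⟩ : ∃ B : ℝ, 0 ≤ B ∧ ∀ w ∈ ball (0 : En n) 1, ‖φ w‖ ≤ B :=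
    ⟨max B₀ 0, le_max_right _ _, fun w hw => (hB₀ w hw).trans (le_max_left _ _)⟩
  have hjj : Rep j j := by
    have := hrep 1 0
    simpa using this
  by_contra hcon
  have step : ∀ m : ℝ, 0 ≤ m → (∃ C : ℝ, ∀ w ∈ ball (0 : En n) 1, ‖j w‖ ≤ C * dd ζ w ^ m) →
      ∃ C : ℝ, ∀ w ∈ ball (0 : En n) 1, ‖j w‖ ≤ C * dd ζ w ^ (m + κ) := by
    rintro m hm ⟨C₀, hC₀⟩
    obtain ⟨Cj, hCj, hjm⟩ : ∃ Cj : ℝ, 0 ≤ Cj ∧
        ∀ w ∈ ball (0 : En n) 1, ‖j w‖ ≤ Cj * dd ζ w ^ m :=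
      ⟨max C₀ 0, le_max_right _ _, fun w hw => (hC₀ w hw).trans
        (mul_le_mul_of_nonneg_right (le_max_left _ _) (Real.rpow_nonneg (dd_nonneg _ _) _))⟩
    obtain ⟨e1, C1, hC1, h1⟩ := expand hE j j ζ hζ m Cj 1 hm hCj zero_le_one hjm hjj
      (fun w _ => by rw [one_mul])
    have hk2 : m ≤ ⌈m⌉₊ := Nat.le_ceil m
    by_cases hcase : e1 = 0 ∨ m + 1 / 8 ≤ ⌈m⌉₊
    · refine hI j ζ m (Cj + (‖e1‖ + C1)) hζ hj hne hjj hm ?_ ?_
      · intro w hw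
        refine (hjm w hw).trans (mul_le_mul_of_nonneg_right ?_
          (Real.rpow_nonneg (dd_nonneg _ _) _))
        have := norm_nonneg e1
        linarith
      · intro s hs
        have e1' : (1 : ℂ) + -(s : ℂ) = ((1 - s : ℝ) : ℂ) := by push_cast; ring
        have e2 : ‖(1 : ℂ) + -(s : ℂ)‖ < 1 := by
          rw [e1', Complex.norm_real, Real.norm_eq_abs, abs_of_nonneg (by linarith [hs.2])]
          linarith [hs.1]
        have h2 := h1 (-(s : ℂ)) e2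
        rw [e1', norm_neg, Complex.norm_real, Real.norm_eq_abs, abs_of_pos hs.1] at h2
        have h3 : ‖j (((1 - s : ℝ) : ℂ) • ζ)‖ ≤ ‖j (((1 - s : ℝ) : ℂ) • ζ) -
            e1 * (-(s : ℂ)) ^ ⌈m⌉₊‖ + ‖e1 * (-(s : ℂ)) ^ ⌈m⌉₊‖ := by
          have := norm_add_le (j (((1 - s : ℝ) : ℂ) • ζ) - e1 * (-(s : ℂ)) ^ ⌈m⌉₊)
            (e1 * (-(s : ℂ)) ^ ⌈m⌉₊)
          rwa [sub_add_cancel] at this
        have h4 : s ^ (m + 7 / 8) ≤ s ^ (m + 1 / 8) :=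
          Real.rpow_le_rpow_of_exponent_ge hs.1 hs.2 (by linarith)
        have h5 : ‖e1 * (-(s : ℂ)) ^ ⌈m⌉₊‖ ≤ ‖e1‖ * s ^ (m + 1 / 8) := by
          rcases hcase with h | h
          · rw [h]; simp
          · rw [norm_mul, norm_pow, norm_neg, Complex.norm_real, Real.norm_eq_abs,
              abs_of_pos hs.1, ← Real.rpow_natCast]
            exact mul_le_mul_of_nonneg_left
              (Real.rpow_le_rpow_of_exponent_ge hs.1 hs.2 h) (norm_nonneg _)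
        have h6 : C1 * s ^ (m + 7 / 8) ≤ C1 * s ^ (m + 1 / 8) := by gcongr
        have h7 : 0 ≤ Cj * s ^ (m + 1 / 8) := mul_nonneg hCj (Real.rpow_nonneg hs.1.le _)
        nlinarith
    · exfalso
      apply hcon
      push Not at hcase
      obtain ⟨he1, hk⟩ := hcase
      have hcoord : ∀ i : Fin n, ∃ (e : ℂ) (C : ℝ), 0 ≤ C ∧ ∀ τ : ℂ, ‖1 + τ‖ < 1 →
          ‖j ((1 + τ) • ζ) * φ ((1 + τ) • ζ) i - e * τ ^ ⌈m⌉₊‖ ≤ C * ‖τ‖ ^ (m + 7 / 8) := by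
        intro i
        obtain ⟨e, C, hC, h⟩ := expand hE j
          (fun a => j a * (0 + (EuclideanSpace.proj i : En n →L[ℂ] ℂ) (φ a))) ζ hζ m Cj B hm hCj
          hB0 hjm (hrep 0 _) (by
            intro w hw
            rw [norm_mul, mul_comm, zero_add]
            refine mul_le_mul_of_nonneg_right ?_ (norm_nonneg _)
            exact (PiLp.norm_apply_le (φ w) i).trans (hφB w hw))
        refine ⟨e, C, hC, fun τ hτ => ?_⟩
        have := h τ hτ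
        simpa using this
      choose e C hC he using hcoord
      have he1' : 0 < ‖e1‖ := norm_pos_iff.2 he1
      refine ⟨WithLp.toLp 2 (fun i => e i / e1), ∑ i, 2 * ((B * C1 + C i) / ‖e1‖), ?_⟩
      intro x hx
      rw [mem_ball_zero_iff] at hx
      have hτ : ‖1 + (x - 1)‖ < 1 := by simpa using hx
      have ex : 1 + (x - 1) = x := by ring
      have hτ0 : 0 < ‖x - 1‖ := by
        rw [norm_pos_iff, sub_ne_zero]
        rintro rfl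
        simp at hx
      have hτ2 : ‖x - 1‖ ≤ 2 := by
        refine (norm_sub_le _ _).trans ?_
        rw [norm_one]
        linarith
      refine (norm_le_sum _).trans ?_
      rw [Finset.sum_mul]
      refine Finset.sum_le_sum fun i _ => ?_
      have a1 := h1 (x - 1) hτ
      have a2 := he i (x - 1) hτ
      rw [ex] at a1 a2
      have a3 : ‖φ (x • ζ) i‖ ≤ B :=
        (PiLp.norm_apply_le (φ (x • ζ)) i).trans (hφB _ (smul_mem hζ hx))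
      have a4 : (φ (x • ζ) i - e i / e1) * e1 * (x - 1) ^ ⌈m⌉₊ =
          (j (x • ζ) * φ (x • ζ) i - e i * (x - 1) ^ ⌈m⌉₊) -
            φ (x • ζ) i * (j (x • ζ) - e1 * (x - 1) ^ ⌈m⌉₊) := by
        field_simp
        ring
      have a5 : ‖φ (x • ζ) i - e i / e1‖ * ‖e1‖ * ‖x - 1‖ ^ ⌈m⌉₊ ≤
          (B * C1 + C i) * ‖x - 1‖ ^ (m + 7 / 8) := by
        rw [← norm_pow, ← norm_mul, ← norm_mul, a4]
        refine (norm_sub_le _ _).trans ?_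
        rw [norm_mul]
        have : ‖φ (x • ζ) i‖ * ‖j (x • ζ) - e1 * (x - 1) ^ ⌈m⌉₊‖ ≤
            B * (C1 * ‖x - 1‖ ^ (m + 7 / 8)) := mul_le_mul a3 a1 (norm_nonneg _) hB0
        nlinarith
      have a6 : ‖x - 1‖ ^ (m + 7 / 8) ≤ 2 * ‖x - 1‖ ^ (3 / 4 : ℝ) * ‖x - 1‖ ^ ⌈m⌉₊ := by
        have b1 : ‖x - 1‖ ^ (m + 7 / 8) = ‖x - 1‖ ^ (m + 1 / 8 - ⌈m⌉₊) *
            ‖x - 1‖ ^ (3 / 4 : ℝ) * ‖x - 1‖ ^ ⌈m⌉₊ := by
          rw [← Real.rpow_natCast, ← Real.rpow_add hτ0, ← Real.rpow_add hτ0]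
          congr 1
          ring
        have b2 : ‖x - 1‖ ^ (m + 1 / 8 - ⌈m⌉₊) ≤ 2 := by
          calc ‖x - 1‖ ^ (m + 1 / 8 - ⌈m⌉₊) ≤ (2 : ℝ) ^ (m + 1 / 8 - ⌈m⌉₊) :=
                Real.rpow_le_rpow hτ0.le hτ2 (by linarith)
            _ ≤ (2 : ℝ) ^ (1 : ℝ) :=
                Real.rpow_le_rpow_of_exponent_le (by norm_num) (by linarith)
            _ = 2 := Real.rpow_one 2
        rw [b1]
        have := Real.rpow_nonneg hτ0.le (3 / 4 : ℝ)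
        gcongr
      have a7 : 0 ≤ B * C1 + C i := by
        have := hC i
        positivity
      have a8 : ‖φ (x • ζ) i - e i / e1‖ * ‖e1‖ ≤ (B * C1 + C i) * (2 * ‖x - 1‖ ^ (3 / 4 : ℝ)) := by
        have b1 : 0 < ‖x - 1‖ ^ ⌈m⌉₊ := pow_pos hτ0 _
        refine le_of_mul_le_mul_right (a5.trans ?_) b1
        rw [mul_assoc]
        exact mul_le_mul_of_nonneg_left a6 a7
      rw [norm_sub_rev 1 x]
      change ‖φ (x • ζ) i - e i / e1‖ ≤ _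
      rw [← le_div_iff₀ he1'] at a8
      refine a8.trans (le_of_eq ?_)
      ring
  have hall : ∀ i : ℕ, ∃ C : ℝ, ∀ w ∈ ball (0 : En n) 1, ‖j w‖ ≤ C * dd ζ w ^ ((i : ℝ) * κ) := by
    intro i
    induction i with
    | zero =>
      obtain ⟨Bj, hBj⟩ := hB
      exact ⟨Bj, fun w hw => by simpa using hBj w hw⟩
    | succ i ih =>
      have := step _ (by positivity) ih
      rwa [show (i : ℝ) * κ + κ = ((i + 1 : ℕ) : ℝ) * κ by push_cast; ring] at this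
  obtain ⟨c, K, hc, hfin⟩ := hfin
  obtain ⟨i, hi⟩ := exists_nat_gt (K / κ)
  rw [div_lt_iff₀ hκ] at hi
  obtain ⟨C, hC⟩ := hall i
  have hlim : Tendsto (fun t : ℝ => C * (1 - t) ^ ((i : ℝ) * κ - K)) (𝓝[<] 1) (𝓝 0) := by
    have h1 : ContinuousAt (fun t : ℝ => C * (1 - t) ^ ((i : ℝ) * κ - K)) 1 := by
      refine continuousAt_const.mul (ContinuousAt.rpow_const (by fun_prop) (Or.inr (by linarith)))
    have h2 := h1.tendsto.mono_left (nhdsWithin_le_nhds (s := Iio 1))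
    simpa [Real.zero_rpow (show (i : ℝ) * κ - K ≠ 0 by linarith)] using h2
  obtain ⟨t, h1, h2, h3⟩ := (hfin.and ((hlim.eventually (gt_mem_nhds hc)).and
    (Ioo_mem_nhdsLT (show (0 : ℝ) < 1 by norm_num)))).exists
  have ht : ‖(t : ℂ)‖ < 1 := by
    rw [Complex.norm_real, Real.norm_eq_abs, abs_of_pos h3.1]
    exact h3.2
  have h4 := hC _ (smul_mem hζ ht)
  have h5 := dd_radial hζ (1 - t) (by linarith [h3.2])
  rw [sub_sub_cancel] at h5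
  rw [h5] at h4
  have h6 : 0 < 1 - t := by linarith [h3.2]
  have h7 : (1 - t) ^ ((i : ℝ) * κ) = (1 - t) ^ ((i : ℝ) * κ - K) * (1 - t) ^ K := by
    rw [← Real.rpow_add h6]
    congr 1
    ring
  rw [h7, ← mul_assoc] at h4
  have h8 := mul_lt_mul_of_pos_right h2 (Real.rpow_pos_of_pos h6 K)
  linarith

theorem rep_cont {n : ℕ} (hE : LemE n) (j G : En n → ℂ)
    (hB : ∃ B : ℝ, ∀ w ∈ ball (0 : En n) 1, ‖j w‖ ≤ B) (hr : Rep j G) (ζ : En n) (hζ : ‖ζ‖ ≤ 1) :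
    ∃ L : ℂ, Tendsto G (𝓝[ball 0 1] ζ) (𝓝 L) := by
  obtain ⟨B₀, hB₀⟩ := hB
  obtain ⟨B, hB0, hjB⟩ : ∃ B : ℝ, 0 ≤ B ∧ ∀ w ∈ ball (0 : En n) 1, ‖j w‖ ≤ B :=
    ⟨max B₀ 0, le_max_right _ _, fun w hw => (hB₀ w hw).trans (le_max_left _ _)⟩
  obtain ⟨C, μ, hC, hμ, hb, hGμ⟩ := hr
  obtain ⟨C', hC', h⟩ := hE 1 0 (1 / 2) le_rfl (by norm_num) (by norm_num) (by norm_num)
    (by norm_num)
  have key : ∀ a ∈ ball (0 : En n) 1,
      ‖G a - bT μ ζ‖ ≤ C' * (C * B) * ‖a - ζ‖ ^ (1 / 2 : ℝ) := by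
    intro a ha
    have ha' := mem_ball_zero_iff.1 ha
    obtain ⟨e, he⟩ := h μ (C * B) ζ (((‖a - ζ‖⁻¹ : ℝ) : ℂ) • (a - ζ)) (by positivity) hμ hζ (by
      rw [norm_smul, Complex.norm_real, norm_inv, norm_norm]
      exact inv_mul_le_one_of_le₀ le_rfl (norm_nonneg _)) (by
      intro y hy
      have h1 := hb y hy
      have h2 := hjB y hy
      have h3 : 0 ≤ 1 - ‖y‖ := by
        have := mem_ball_zero_iff.1 hy
        linarith
      rw [Real.rpow_zero, mul_one]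
      calc ‖μ y‖ ≤ C * ‖j y‖ * (1 - ‖y‖) := h1
        _ ≤ C * B * (1 - ‖y‖) := by gcongr)
    have h0 := he 0 (by simp) (by simpa using hζ)
    have h0' : bT μ ζ = e 0 := by
      have : ‖bT μ ζ - e 0‖ ≤ 0 := by simpa using h0
      exact sub_eq_zero.1 (norm_le_zero_iff.1 this)
    have e1 : ζ + ((‖a - ζ‖ : ℝ) : ℂ) • ((‖a - ζ‖⁻¹ : ℝ) : ℂ) • (a - ζ) = a := by
      by_cases haz : a - ζ = 0
      · rw [haz, smul_zero, smul_zero, add_zero]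
        exact (sub_eq_zero.1 haz).symm
      · rw [smul_smul, ← Complex.ofReal_mul, mul_inv_cancel₀ (norm_ne_zero_iff.2 haz)]
        simp
    have h1 := he ((‖a - ζ‖ : ℝ) : ℂ) (by
      rw [Complex.norm_real, norm_norm]
      refine (norm_sub_le _ _).trans ?_
      linarith) (by rw [e1]; exact ha'.le)
    rw [e1, ← hGμ a ha, Complex.norm_real, norm_norm] at h1
    rw [h0']
    simpa using h1
  refine ⟨bT μ ζ, ?_⟩
  rw [tendsto_iff_norm_sub_tendsto_zero]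
  have hlim : Tendsto (fun a : En n => C' * (C * B) * ‖a - ζ‖ ^ (1 / 2 : ℝ)) (𝓝[ball 0 1] ζ)
      (𝓝 0) := by
    have h1 : ContinuousAt (fun a : En n => C' * (C * B) * ‖a - ζ‖ ^ (1 / 2 : ℝ)) ζ :=
      continuousAt_const.mul (ContinuousAt.rpow_const (by fun_prop) (Or.inr (by norm_num)))
    have h2 := h1.tendsto.mono_left (nhdsWithin_le_nhds (s := ball (0 : En n) 1))
    simpa using h2
  refine squeeze_zero' (Eventually.of_forall fun _ => norm_nonneg _) ?_ hlim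
  filter_upwards [self_mem_nhdsWithin] with a ha using key a ha

end Pool.Agent.H809Z.Ball
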